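import Pool.Agent.R740.AC.Digits

set_option autoImplicit false

/-!
# Extremal sets for `r_3(N)` and circuits that read the digits

`Circ w n (Fin b)` (in `Pool.Agent.R740.AC`): circuits whose input is a word of `n` digits in base
`b`; every node is an arbitrary test of one digit, an arbitrary gate with at most `w` wires, or an
AND or OR gate with any number of wires (wires may be negated); the depth grows along the wires.
`num x = ∑ i, x i * b ^ i` is the integer with the digits `x`. `rothNumberNat N` is `r_3(N)`.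
-/

namespace Pool.Agent.Results.MP_0f71ae_nt.DigitCircuits

open Finset Pool.Agent.R740.AC

/-- **Sets without three-term progressions and circuits of constant depth on the digits.**
Put `N = b ^ n`.
(1) Let `b ≥ 3`. If a circuit of depth at most `d` with at most `2 ^ ℓ - n` nodes decides from the
digits in base `b` whether an integer belongs to `A ⊆ {0, …, N - 1}`, and `A` has no 3-term
progression, then `|A| ≤ 2 b N 2 ^ (2 ℓ + 4 - n / (2 b (d + 1) (2 ^ (d + 10) w ℓ) ^ (d + 1)))`.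
(2) For all `b ≥ 2`, `d`, `w`, `Λ` and `0 < ε ≤ 1` there is `c > 0` such that for every set
`A ⊆ {0, …, N - 1}` without 3-term progressions and with `|A| ≥ N exp (- Λ √n)`, and every set `F`
decided by a circuit of depth at most `d` with at most `2 ^ ℓ - n` nodes, where
`ℓ ^ (2 (d + 1)) ≤ c n`, we have `|A ∩ F| ≤ ε max (|A|, |F|)`.
(3) The same holds for all extremal sets: those with `|A| = r_3(N)`. -/
theorem result :
    (∀ w n b d ℓ : ℕ, 1 ≤ w → 1 ≤ n → 3 ≤ b → ∀ C : Circ w n (Fin b),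
      Nat.card C.Node + n ≤ 2 ^ ℓ → (∀ v, C.depth v ≤ d) → ∀ (o : C.Node) (A : Finset ℕ),
      ThreeAPFree (A : Set ℕ) → A ⊆ range (b ^ n) → (∀ x, C.val o x = true ↔ num x ∈ A) →
      (A.card : ℝ) ≤ 2 * b * (b : ℝ) ^ n * (2 : ℝ) ^
        (2 * ℓ + 4 - n / (2 * b * (d + 1) * ((2 : ℝ) ^ (d + 10) * (w * ℓ)) ^ (d + 1)) : ℝ)) ∧
    (∀ (w b d : ℕ) (ε Λ : ℝ), 1 ≤ w → 2 ≤ b → 0 < ε → ε ≤ 1 → 0 ≤ Λ → ∃ c : ℝ, 0 < c ∧
      ∀ (n ℓ : ℕ) (A : Finset ℕ), 1 ≤ n → ThreeAPFree (A : Set ℕ) → A ⊆ range (b ^ n) →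
      (b : ℝ) ^ n * Real.exp (-(Λ * √n)) ≤ A.card →
      ∀ C : Circ w n (Fin b), Nat.card C.Node + n ≤ 2 ^ ℓ → (∀ v, C.depth v ≤ d) →
      (ℓ : ℝ) ^ (2 * (d + 1)) ≤ c * n → ∀ (o : C.Node) (F : Finset ℕ),
      (∀ a, a ∈ F ↔ ∃ x, C.val o x = true ∧ num x = a) →
      ((A ∩ F).card : ℝ) ≤ ε * max (A.card : ℝ) F.card) ∧
    (∀ (w b d : ℕ) (ε : ℝ), 1 ≤ w → 2 ≤ b → 0 < ε → ε ≤ 1 → ∃ c : ℝ, 0 < c ∧
      ∀ (n ℓ : ℕ) (A : Finset ℕ), 1 ≤ n → ThreeAPFree (A : Set ℕ) → A ⊆ range (b ^ n) →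
      A.card = rothNumberNat (b ^ n) →
      ∀ C : Circ w n (Fin b), Nat.card C.Node + n ≤ 2 ^ ℓ → (∀ v, C.depth v ≤ d) →
      (ℓ : ℝ) ^ (2 * (d + 1)) ≤ c * n → ∀ (o : C.Node) (F : Finset ℕ),
      (∀ a, a ∈ F ↔ ∃ x, C.val o x = true ∧ num x = a) →
      ((A ∩ F).card : ℝ) ≤ ε * max (A.card : ℝ) F.card) := by
  refine ⟨?_, ?_, ?_⟩
  · intro w n b d ℓ hw hn hb C hs hd o A hA hAn hC
    exact digits_bound hw hb hn C hs hd o A hA hAn hC
  · intro w b d ε Λ hw hb hε hε1 hΛ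
    exact digits_relative hw hb hε hε1 hΛ
  · intro w b d ε hw hb hε hε1
    obtain ⟨c, hc, h⟩ := digits_relative (d := d) hw hb hε hε1
      (Λ := 4 * √(Real.log b)) (by positivity)
    refine ⟨c, hc, ?_⟩
    intro n ℓ A hn hA hAn hAr C hs hd hℓ o F hF
    refine h n ℓ A hn hA hAn ?_ C hs hd hℓ o F hF
    rw [hAr]
    have h1 := Behrend.roth_lower_bound (N := b ^ n)
    have e : Real.exp (-(4 * √(Real.log b) * √n)) = Real.exp (-4 * √(Real.log (b ^ n : ℕ))) := by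
      congr 1
      push_cast
      rw [Real.log_pow, mul_comm (n : ℝ), Real.sqrt_mul (Real.log_natCast_nonneg b)]
      ring
    rw [e]
    refine le_trans (le_of_eq ?_) h1
    push_cast
    ring

end Pool.Agent.Results.MP_0f71ae_nt.DigitCircuits
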