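import Pool.Agent.R535.AP.Strong

/-!
# Containers at the threshold, and the number of progression-free sets

For `k ≥ 3` let `r k N` be the largest size of a subset of `{1, ..., N}` without arithmetic
progressions of length `k` (`k = 3`: the function `r_3` of the question), and let `freeSets k N` be
the family of all subsets without such progressions. Let `0 < ε ≤ 1`. There are `c > 0` and a set of
exceptional `N` of upper logarithmic density at most `ε`, such that for all other `N`:

* (containers) `exp (exp (-c √(log N)) r k N)` subsets of `{1, ..., N}`, each with at most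
  `(1 + ε) r k N` elements, contain all progression-free subsets of `{1, ..., N}`;
* (counting) the number of progression-free subsets is at most `2 ^ ((1 + ε) r k N)`, and the number
  of those with `m` elements is at most `exp (exp (-c √(log N)) r k N)` times the number of `m`-subsets
  of a set with `(1 + ε) r k N` elements;
* (random sets) if `exp (-c √(log N)) ≤ p ≤ 1`, then with probability at least
  `1 - exp (-(ε ^ 2 / 36) p r k N)` the `p`-random subset of `{1, ..., N}` contains no
  progression-free set with more than `(1 + ε) p r k N` elements.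

Consequently `2 ^ (r k N) ≤ |freeSets k N| ≤ 2 ^ ((1 + ε) r k N)` holds for every `ε > 0` and all `N`
outside a set of logarithmic density zero, so an asymptotic formula for `r_3` on almost all
scales is the same as one for the logarithm of the number of progression-free sets.

Proof. If `U` has more than `(1 + ε) r k N` elements, then for each prime `q ≤ exp (c √(log N))` there
are disjoint progressions with differences divisible by `q` which cover a positive proportion of
`U`, since the rest of `U` meets every residue class mod `q` in at most `r k (N / q + 1)` points and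
`r k` is regular at almost all scales. Together, for all these `q`, they form a hypergraph with
bounded ratio of the maximal to the average degree, in which two points are in `O(log N)` edges. The
container lemma applies and gives smaller containers. For `|U|` much larger than `r k N` one uses
primes up to `exp (6 k √(log N))`, as in windows of this width `r k N / N` changes by a bounded factor
for almost all `N`.
-/

set_option autoImplicit false

open Finset

namespace Pool.Agent.Results.MP_0f71ae_nt.ThresholdContainers

open Pool.Agent.H617R3.AP Pool.Agent.R535.AP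

open Classical in
theorem result (k : ℕ) (hk : 3 ≤ k) :
    (∀ ε : ℝ, 0 < ε → ε ≤ 1 → ∃ (c C : ℝ) (E : Set ℕ), 0 < c ∧
      (∀ x : ℕ, 1 ≤ x → ∑ N ∈ (Icc 1 x).filter (fun N => N ∈ E), (1 : ℝ) / N ≤
        ε * Real.log x + C) ∧
      ∀ N : ℕ, 1 ≤ N → N ∉ E →
        -- containers
        (∃ 𝒞 : Finset (Finset ℕ),
          (𝒞.card : ℝ) ≤ Real.exp (Real.exp (-(c * √(Real.log N))) * r k N) ∧
          (∀ D ∈ 𝒞, D ⊆ Icc 1 N ∧ (D.card : ℝ) ≤ (1 + ε) * r k N) ∧
          ∀ A ∈ freeSets k N, ∃ D ∈ 𝒞, A ⊆ D) ∧
        -- counting
        ((freeSets k N).card : ℝ) ≤ (2 : ℝ) ^ ((1 + ε) * r k N) ∧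
        (∀ m : ℕ, (((freeSets k N).filter (fun A => A.card = m)).card : ℝ) ≤
          Real.exp (Real.exp (-(c * √(Real.log N))) * r k N) *
            (⌊(1 + ε) * r k N⌋₊.choose m : ℕ)) ∧
        -- random sets
        (∀ p : ℝ, Real.exp (-(c * √(Real.log N))) ≤ p → p ≤ 1 →
          randProb (Icc 1 N) p
            (fun S => ∃ A ⊆ S, APFree k A ∧ (1 + ε) * (p * r k N) ≤ (A.card : ℝ)) ≤
          Real.exp (-(ε ^ 2 / 36 * (p * r k N))))) ∧
    -- the number of progression-free sets at almost all scales
    (∀ N : ℕ, 2 ^ r k N ≤ (freeSets k N).card) ∧
    (∀ ε ε' : ℝ, 0 < ε → 0 < ε' → ∃ C : ℝ, ∀ x : ℕ, 1 ≤ x →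
      ∑ N ∈ (Icc 1 x).filter (fun N => (2 : ℝ) ^ ((1 + ε) * r k N) < (freeSets k N).card),
        (1 : ℝ) / N ≤ ε' * Real.log x + C) :=
  ⟨fun _ h0 h1 => strong hk h0 h1, pow_le_freeSets (by omega),
    fun _ _ h0 h0' => density_zero hk h0 h0'⟩

end Pool.Agent.Results.MP_0f71ae_nt.ThresholdContainers
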