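import Pool.Agent.R444.Supersat3

/-!
# The extremal number of progression-free sets is stable: supersaturation and weights

For `k ≥ 3` let `r k N` be the largest size of a subset of `{1, ..., N}` without arithmetic
progressions of length `k` (`k = 3`: the function `r_3` of the question). Let `0 < ε ≤ 1`.

* (1) Outside a set of `N` of upper logarithmic density at most `ε`, every subset of `{1, ..., N}`
  with at least `(1 + ε) r k N` elements contains `exp (c √(log N)) r k N` progressions of length
  `k`, and at least `(ε / 2) r k N` progressions with difference divisible by `d`, for each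
  `d ≤ exp (c √(log N))`.  So the largest size of a subset of `{1, ..., N}` with at most
  `exp (c √(log N)) r k N` progressions is at most `(1 + ε) r k N`, and asymptotic formulas for
  this number and for `r k N` are the same.
* (2) Outside a set of `N` of size `O(√(log x))` (sum of the reciprocals up to `x`) the density
  `r k N / N` of the extremal sets is attained for every weight `w ≥ 0` on `{1, ..., N}`: some
  progression-free set carries a proportion `(1 - ε) r k N / N` of the weight.
-/

set_option autoImplicit false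

open Finset

namespace Pool.Agent.Results.MP_0f71ae_nt.ThresholdSupersaturation

open Pool.Agent.H617R3.AP Pool.Agent.R444.Supersat

open Classical in
theorem result (k : ℕ) (hk : 3 ≤ k) (ε : ℝ) (h0 : 0 < ε) (h1 : ε ≤ 1) :
    -- (1) supersaturation
    (∃ (c C : ℝ) (E : Set ℕ), 0 < c ∧
      (∀ x : ℕ, 1 ≤ x → ∑ N ∈ (Icc 1 x).filter (fun N => N ∈ E), (1 : ℝ) / N ≤
        ε * Real.log x + C) ∧
      ∀ N : ℕ, 1 ≤ N → N ∉ E → ∀ A : Finset ℕ, A ⊆ Icc 1 N → (1 + ε) * r k N ≤ A.card →
        (∀ d : ℕ, 1 ≤ d → (d : ℝ) ≤ Real.exp (c * √(Real.log N)) →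
          ε / 2 * r k N ≤ apCount k N d A) ∧
        r k N * Real.exp (c * √(Real.log N)) ≤ apCount k N 1 A) ∧
    -- (2) weights
    (∃ (C : ℝ) (E : Set ℕ),
      (∀ x : ℕ, 2 ≤ x → ∑ N ∈ (Icc 1 x).filter (fun N => N ∈ E), (1 : ℝ) / N ≤
        C * √(Real.log x)) ∧
      ∀ N : ℕ, 1 ≤ N → N ∉ E → ∀ w : ℕ → ℝ, (∀ x, 0 ≤ w x) →
        ∃ A : Finset ℕ, A ⊆ Icc 1 N ∧ APFree k A ∧
          (1 - ε) * ((r k N : ℝ) / N) * ∑ x ∈ Icc 1 N, w x ≤ ∑ x ∈ A, w x) :=
  ⟨main hk h0 h1, main2 hk h0 h1⟩

end Pool.Agent.Results.MP_0f71ae_nt.ThresholdSupersaturation
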