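import Pool.Agent.R740.BVC4

set_option autoImplicit false

namespace Pool.Agent.Results.MP_0f71ae_nt.VCDimension

open Finset Pool.Agent.R740

/-- every subset `T` of `S` is cut out of `S` by a translate `B + h` of `B` -/
def Shatters (B S : Finset ℤ) : Prop := ∀ T ⊆ S, ∃ h : ℤ, ∀ s ∈ S, s ∈ T ↔ s - h ∈ B

/-- `A` contains no nontrivial progression `x, x + y, …, x + (k - 1) y` -/
def APFree (k : ℕ) (A : Finset ℤ) : Prop := ∀ x y : ℤ, (∀ j < k, x + j * y ∈ A) → y = 0

/-- **The VC dimension of progression-free subsets of `{1, …, N}`.**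
Let `k ≥ 2` and let `A ⊆ {1, …, N}` have no `k`-term progression; let `B ⊆ {1, …, N}` be close to
`A`, `|A Δ B| ≤ |A| / (2 (k - 1))`, for instance `B = A`.
(1) The translates of `B` shatter a set `S` with `|S| ≥ log N / (2 log (80 (k - 1) N / |A|))`.
(2) For the extremal sets (`k ≥ 3`, `|A|` as large as possible) this gives
`|S| ≥ log N / (2 log (80 (k - 1)) + 8 √(log N))`, and for `k = 3`, where `|A| = r_3(N)`,
`|S| ≥ √(log N) / 21`.
(3) If the translates of `B` shatter no set with more than `d ≥ 1` elements, then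
`|A| ≤ 40 (k - 1) (1 + (log N) / d) N^(1 - 1/d)`.
(4) For `d = 2` this is sharp up to the logarithm: for every odd prime `p` there is a subset of
`{1, …, 2 p²}` with `p` elements without `3`-term progressions whose translates shatter no set of
three points. -/
theorem result :
    (∀ (k N : ℕ) (A B : Finset ℤ), 2 ≤ k → A.Nonempty → A ⊆ Icc 1 (N : ℤ) → APFree k A →
      B ⊆ Icc 1 (N : ℤ) → 2 * (k - 1) * (symmDiff A B).card ≤ A.card →
      ∃ S, Shatters B S ∧
        Real.log N ≤ 2 * (S.card : ℝ) * Real.log (80 * ((k : ℝ) - 1) * N / A.card)) ∧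
    (∀ (k N : ℕ) (A B : Finset ℤ), 3 ≤ k → 1 ≤ N → A ⊆ Icc 1 (N : ℤ) → APFree k A →
      (∀ A' ⊆ Icc 1 (N : ℤ), APFree k A' → A'.card ≤ A.card) →
      B ⊆ Icc 1 (N : ℤ) → 2 * (k - 1) * (symmDiff A B).card ≤ A.card →
      ∃ S, Shatters B S ∧
        Real.log N ≤ (S.card : ℝ) * (2 * Real.log (80 * ((k : ℝ) - 1)) + 8 * √(Real.log N)) ∧
        (k = 3 → √(Real.log N) ≤ 21 * (S.card : ℝ))) ∧
    (∀ (k N d : ℕ) (A B : Finset ℤ), 2 ≤ k → 1 ≤ d → 1 ≤ N → APFree k A →
      B ⊆ Icc 1 (N : ℤ) → 2 * (k - 1) * (symmDiff A B).card ≤ A.card →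
      (∀ S, Shatters B S → S.card ≤ d) →
      (A.card : ℝ) ≤ 40 * (k - 1) * (1 + Real.log N / d) * (N : ℝ) ^ (1 - 1 / d : ℝ)) ∧
    (∀ p : ℕ, p.Prime → p ≠ 2 → ∃ A ⊆ Icc (1 : ℤ) ((2 * p ^ 2 : ℕ) : ℤ), APFree 3 A ∧
      (∀ S, Shatters A S → S.card ≤ 2) ∧ A.card = p) := by
  refine ⟨?_, ?_, ?_, ?_⟩
  · intro k N A B hk hA hAN hAP hBN hAB
    exact BVC.int_shatter hk hA hAN hAP hAB hBN
  · intro k N A B hk hN hAN hAP hmax hBN hAB
    have hN1 : (1 : ℝ) ≤ N := by exact_mod_cast hN
    have hb : (N : ℝ) * Real.exp (-4 * √(Real.log N)) ≤ A.card := BVC.behrend_le hk hmax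
    have hA0 : (0 : ℝ) < A.card := lt_of_lt_of_le (by positivity) hb
    have hA : A.Nonempty := card_pos.1 (by exact_mod_cast hA0)
    obtain ⟨S, hS, h⟩ := BVC.int_shatter (k := k) (by omega) hA hAN hAP hAB hBN
    have hk3 : (3 : ℝ) ≤ k := by exact_mod_cast hk
    have hlog : Real.log (80 * ((k : ℝ) - 1) * N / A.card) ≤
        Real.log (80 * ((k : ℝ) - 1)) + 4 * √(Real.log N) := by
      have h1 : 80 * ((k : ℝ) - 1) * N / A.card ≤
          80 * ((k : ℝ) - 1) * Real.exp (4 * √(Real.log N)) := by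
        rw [div_le_iff₀ hA0]
        calc 80 * ((k : ℝ) - 1) * N
            = 80 * ((k : ℝ) - 1) * Real.exp (4 * √(Real.log N)) *
              (N * Real.exp (-4 * √(Real.log N))) := by
              rw [neg_mul, Real.exp_neg]
              field_simp
          _ ≤ _ := mul_le_mul_of_nonneg_left hb (mul_nonneg (by linarith) (Real.exp_pos _).le)
      have h0 : 0 < 80 * ((k : ℝ) - 1) * N / A.card := by
        have : (0 : ℝ) < (k : ℝ) - 1 := by linarith
        positivity
      calc Real.log (80 * ((k : ℝ) - 1) * N / A.card)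
          ≤ Real.log (80 * ((k : ℝ) - 1) * Real.exp (4 * √(Real.log N))) :=
            Real.log_le_log h0 h1
        _ = _ := by
            rw [Real.log_mul (by linarith) (Real.exp_pos _).ne', Real.log_exp]
    have h2 : Real.log N ≤
        (S.card : ℝ) * (2 * Real.log (80 * ((k : ℝ) - 1)) + 8 * √(Real.log N)) := by
      refine h.trans ?_
      have := mul_le_mul_of_nonneg_left hlog (by positivity : (0 : ℝ) ≤ 2 * (S.card : ℝ))
      refine this.trans (le_of_eq ?_)
      ring
    refine ⟨S, hS, h2, ?_⟩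
    intro hk3'
    rcases Nat.lt_or_ge N 2 with hN2 | hN2
    · have : N = 1 := by omega
      subst this
      simp
    -- `N ≥ 2`
    have hl2 : 0.6931471803 < Real.log N := by
      refine lt_of_lt_of_le Real.log_two_gt_d9 ?_
      exact Real.log_le_log (by norm_num) (by exact_mod_cast hN2)
    have hs0 : 0.83 ≤ √(Real.log N) := by
      apply Real.le_sqrt_of_sq_le
      norm_num
      linarith
    have h160 : Real.log (80 * ((k : ℝ) - 1)) ≤ 5.11 := by
      rw [hk3']
      have e : (80 * (((3 : ℕ) : ℝ) - 1)) = 160 := by norm_num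
      rw [e]
      have : (160 : ℝ) ≤ 2 ^ (7.35 : ℝ) := by
        have h7 : (2 : ℝ) ^ (7.35 : ℝ) = ((2 : ℝ) ^ (147 : ℝ)) ^ ((20 : ℝ)⁻¹) := by
          rw [← Real.rpow_mul (by norm_num)]
          norm_num
        rw [h7, Real.le_rpow_inv_iff_of_pos (by norm_num) (by positivity) (by norm_num)]
        norm_num
      calc Real.log 160 ≤ Real.log (2 ^ (7.35 : ℝ)) := Real.log_le_log (by norm_num) this
        _ = 7.35 * Real.log 2 := Real.log_rpow (by norm_num) _
        _ ≤ 7.35 * 0.6931471808 := by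
            have := Real.log_two_lt_d9
            linarith
        _ ≤ 5.11 := by norm_num
    have hsq : √(Real.log N) * √(Real.log N) = Real.log N :=
      Real.mul_self_sqrt (by linarith)
    have h3 : √(Real.log N) * √(Real.log N) ≤ (S.card : ℝ) * (21 * √(Real.log N)) := by
      rw [hsq]
      refine h2.trans (mul_le_mul_of_nonneg_left ?_ (Nat.cast_nonneg _))
      linarith
    have h4 : √(Real.log N) * √(Real.log N) ≤ (21 * (S.card : ℝ)) * √(Real.log N) := by
      linarith
    exact le_of_mul_le_mul_right h4 (by linarith)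
  · intro k N d A B hk hd hN hAP hBN hAB hV
    exact BVC.int_bound hk hd hN hAP hAB hBN hV
  · intro p hp hp2
    exact BVC.int_example p hp hp2

end Pool.Agent.Results.MP_0f71ae_nt.VCDimension
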